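import Pool.Agent.Work.MP_46fa68_28.Joint
import Pool.Agent.Work.MP_46fa68_T.Op

/-!
# MP_46fa68_co, S4: rare shapes are free

The values of the idempotent `P_B` of level `k` are at most `k! (ex B)^2 = f_B^2 / k!`.  A function on the shapes may be
changed arbitrarily on some shapes of its top level: its level `m` values `Val p q` only lose
`m! ∑ |e B| k! (ex B)^2` in `q`.
-/

set_option autoImplicit false

open Finset Equiv

namespace Pool.JM.Rare

open Pool.JM

variable {N M : ℕ}

/-! ### the values of the idempotents -/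

/-- the diagonal value of the idempotent: `f_B^2 / k!` -/
theorem P_one_one (hM : N < M) : ∀ k, k ≤ N → ∀ B ∈ Lv M k,
    P N M k B 1 1 = (k.factorial : ℝ) * ex B ^ 2
  | 0, _, B, hB => by
    have hB' : B = range M := by simpa [Lv] using hB
    have e : P N M 0 B = if B = range M then 1 else 0 := rfl
    have hex : ex (range M) = 1 := by
      clear hM hB hB' e
      induction M with
      | zero => simp [ex, vd]
      | succ M ih =>
        rw [range_add_one, ex_insert notMem_range_self, ih, one_mul]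
        have h1 : ∏ y ∈ range M, |(M : ℝ) - y| = (M.factorial : ℝ) := by
          rw [← Finset.prod_range_reflect, ← Finset.prod_range_add_one_eq_factorial]
          push_cast
          refine prod_congr rfl fun i hi => ?_
          have hi' := mem_range.1 hi
          rw [Nat.cast_sub (by omega), Nat.cast_sub (by omega)]
          rw [show (M : ℝ) - ((M : ℝ) - ((1 : ℕ) : ℝ) - (i : ℝ)) = (i : ℝ) + 1 by push_cast; ring]
          rw [abs_of_pos (by positivity)]
        rw [h1, div_self]
        exact_mod_cast M.factorial_ne_zero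
    rw [e, if_pos hB', hB', hex]
    simp
  | k + 1, hk, B, hB => by
    have ih := P_one_one hM k (by omega)
    have h1 : P N M (k + 1) B 1 1 = E k (P N M (k + 1) B) 1 1 := by
      rw [E_apply_of (by rw [mul_inv_cancel]; exact Sn_one k)]
    rw [h1, E_P (by omega) hM, Matrix.sum_apply]
    have h2 : ∀ q ∈ (Lv M k).sigma fun C => ad C,
        (if mv q.1 q.2 = B then w q.1 q.2 • P N M k q.1 else 0) (1 : Perm (Fin N)) 1 =
          if mv q.1 q.2 = B then (k.factorial : ℝ) * ex B * ex q.1 else 0 := by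
      intro q hq
      obtain ⟨hC, hu⟩ := mem_sigma.1 hq
      split_ifs with h
      · rw [Matrix.smul_apply, smul_eq_mul, ih q.1 hC, ← h, ex_mv hu]
        ring
      · rfl
    rw [sum_congr rfl h2, ← sum_filter, ← mul_sum]
    have h3 : ∑ q ∈ ((Lv M k).sigma fun C => ad C).filter (fun q => mv q.1 q.2 = B), ex q.1 =
        ∑ x ∈ rm B, ex (mvd B x) := by
      refine (sum_bij (fun x _ => (⟨mvd B x, x - 1⟩ : Σ _ : Finset ℕ, ℕ)) ?_ ?_ ?_ ?_).symm
      · intro x hx
        obtain ⟨h5, h6⟩ := mv_mvd hx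
        exact mem_filter.2 ⟨mem_sigma.2 ⟨mvd_mem hB hx, h5⟩, h6⟩
      · intro x hx y hy hxy
        have e := congrArg Sigma.snd hxy
        simp only at e
        have := (mem_rm.1 hx).2.1
        have := (mem_rm.1 hy).2.1
        omega
      · intro q hq
        obtain ⟨h5, h6⟩ := mem_filter.1 hq
        obtain ⟨hC, hu⟩ := mem_sigma.1 h5
        obtain ⟨C, x⟩ := q
        simp only at hC hu h6
        obtain ⟨hx, hx1⟩ := mem_ad.1 hu
        have hxB : x + 1 ∈ B := by rw [← h6]; exact mem_insert_self _ _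
        have hxn : x ∉ B := by
          rw [← h6]
          simp [mv]
        refine ⟨x + 1, mem_rm.2 ⟨hxB, by omega, by simpa using hxn⟩, ?_⟩
        have e1 : mvd B (x + 1) = C := by
          rw [← h6]
          unfold mvd mv
          have : x + 1 ∉ C.erase x := fun h => hx1 (mem_of_mem_erase h)
          rw [erase_insert this, Nat.add_sub_cancel, insert_erase hx]
        rw [e1, Nat.add_sub_cancel]
      · intro x hx
        rfl
    rw [h3, sum_rm_ex hB, Nat.factorial_succ]
    push_cast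
    ring

/-- all values of the idempotent are bounded by the diagonal one -/
theorem P_abs_le (hM : N < M) {k : ℕ} (hk : k ≤ N) {B : Finset ℕ} (hB : B ∈ Lv M k)
    (σ τ : Perm (Fin N)) : |P N M k B σ τ| ≤ (k.factorial : ℝ) * ex B ^ 2 := by
  have hg := good (N := N) hM k hk
  set T := P N M k B with hT
  have hinv : Inv T := (hg.al B).2
  have hsymm : ∀ a b, T a b = T b a := fun a b => by
    have := congrFun (congrFun (hg.symm B) b) a
    rwa [Matrix.transpose_apply] at this
  have hd : ∀ a, ∑ x, T a x ^ 2 = (k.factorial : ℝ) * ex B ^ 2 := by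
    intro a
    rw [← P_one_one hM k hk B hB, ← hT]
    have e1 : T a a = T 1 1 := by
      have := hinv 1 1 a
      rwa [one_mul] at this
    have e2 := congrFun (congrFun (hg.idem B) a) a
    rw [← hT, Matrix.mul_apply] at e2
    rw [← e1, ← e2]
    refine sum_congr rfl fun x _ => ?_
    rw [hsymm x a, sq]
  have hpos : 0 ≤ (k.factorial : ℝ) * ex B ^ 2 := by positivity
  have e3 := congrFun (congrFun (hg.idem B) σ) τ
  rw [← hT, Matrix.mul_apply] at e3
  rw [← e3]
  have hcs := Finset.sum_mul_sq_le_sq_mul_sq univ (fun x => T σ x) (fun x => T x τ)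
  have e4 : ∑ x, T x τ ^ 2 = (k.factorial : ℝ) * ex B ^ 2 := by
    rw [← hd τ]
    exact sum_congr rfl fun x _ => by rw [hsymm x τ]
  rw [hd σ, e4, ← sq] at hcs
  exact abs_le_of_sq_le_sq hcs hpos

/-- the Plancherel measure has total mass `1` -/
theorem planch_sum {M k : ℕ} (hk : k < M) : ∑ B ∈ Lv M k, (k.factorial : ℝ) * ex B ^ 2 = 1 := by
  have hg := good (N := k) hk k le_rfl
  have h := congrFun (congrFun hg.tot 1) 1
  rw [Matrix.sum_apply, Matrix.one_apply_eq] at h
  rw [← h]
  exact sum_congr rfl fun B hB => (P_one_one hk k le_rfl B hB).symm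

theorem G_abs_le (hM : N < M) {k : ℕ} (hk : k ≤ N) (e : Finset ℕ → ℝ) (σ τ : Perm (Fin N)) :
    |G N M e k σ τ| ≤ ∑ B ∈ Lv M k, |e B| * ((k.factorial : ℝ) * ex B ^ 2) := by
  unfold G
  rw [Matrix.sum_apply]
  refine (abs_sum_le_sum_abs _ _).trans (sum_le_sum fun B hB => ?_)
  rw [Matrix.smul_apply, smul_eq_mul, abs_mul]
  exact mul_le_mul_of_nonneg_left (P_abs_le hM hk hB σ τ) (abs_nonneg _)

/-! ### the harmonic extension downwards -/

/-- `d` steps down -/
noncomputable def dnx (e : Finset ℕ → ℝ) : ℕ → Finset ℕ → ℝ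
  | 0, C => e C
  | d + 1, C => ∑ x ∈ ad C, w C x * dnx e d (mv C x)

/-- the function which is `e` at the level `k` (and above) and harmonic below it -/
noncomputable def ext (M k : ℕ) (e : Finset ℕ → ℝ) (C : Finset ℕ) : ℝ :=
  dnx e (∑ i ∈ range M, i + k - ∑ i ∈ C, i) C

theorem ext_top {M k : ℕ} (e : Finset ℕ → ℝ) {C : Finset ℕ} (hC : C ∈ Lv M k) :
    ext M k e C = e C := by
  unfold ext
  rw [(Lv_spec hC).2.2.2, Nat.sub_self]
  rfl

theorem ext_step {M k j : ℕ} (hj : j < k) (e : Finset ℕ → ℝ) {C : Finset ℕ} (hC : C ∈ Lv M j) :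
    ext M k e C = ∑ x ∈ ad C, w C x * ext M k e (mv C x) := by
  have h1 := (Lv_spec hC).2.2.2
  have h2 : ∑ i ∈ range M, i + k - ∑ i ∈ C, i = (k - j - 1) + 1 := by omega
  have h3 : ext M k e C = dnx e ((k - j - 1) + 1) C := by
    unfold ext
    rw [h2]
  rw [h3]
  refine sum_congr rfl fun x hx => ?_
  have h4 := (Lv_spec (mv_mem hC hx)).2.2.2
  have h5 : ∑ i ∈ range M, i + k - ∑ i ∈ mv C x, i = k - j - 1 := by omega
  unfold ext
  rw [h5]

theorem Harm_ext (M m k : ℕ) (e : Finset ℕ → ℝ) : Harm M m k (ext M k e) :=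
  fun _ _ hj _ hC => ext_step hj e hC

theorem harm_add {M m k : ℕ} {a b : Finset ℕ → ℝ} (ha : Harm M m k a) (hb : Harm M m k b) :
    Harm M m k (fun C => a C + b C) := by
  intro j h1 h2 C hC
  simp only
  rw [ha j h1 h2 C hC, hb j h1 h2 C hC, ← sum_add_distrib]
  exact sum_congr rfl fun x _ => by ring

theorem G_add (a b : Finset ℕ → ℝ) (k : ℕ) :
    G N M (fun C => a C + b C) k = G N M a k + G N M b k := by
  unfold G
  rw [← sum_add_distrib]
  exact sum_congr rfl fun B _ => add_smul _ _ _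

/-- the level `m` values of the downward extension -/
theorem G_ext_abs_le (hM : N < M) {m k : ℕ} (hmk : m ≤ k) (hk : k ≤ N) (e : Finset ℕ → ℝ)
    {σ : Perm (Fin N)} (hσ : Sn m σ) :
    |G N M (ext M k e) m σ 1| ≤ ∑ B ∈ Lv M k, |e B| * ((k.factorial : ℝ) * ex B ^ 2) := by
  have h1 : G N M (ext M k e) k σ 1 = G N M (ext M k e) m (1 * σ * 1⁻¹) 1 :=
    G_val' hM hk hmk (ext M k e) (Harm_ext M m k e) (Sn_one k) (by simpa using hσ)
  have h2 : G N M (ext M k e) m σ 1 = G N M e k σ 1 := by
    have e1 : (1 : Perm (Fin N)) * σ * 1⁻¹ = σ := by group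
    rw [e1] at h1
    rw [← h1]
    unfold G
    rw [Matrix.sum_apply, Matrix.sum_apply]
    refine sum_congr rfl fun B hB => ?_
    rw [ext_top e hB]
  rw [h2]
  exact G_abs_le hM hk e σ 1

/-! ### the override lemma -/

/-- **Rare shapes are free**: `a` may be replaced at its top level `k` by `a + e`; the level `m` values lose
`m! ∑ |e B| k! (ex B)^2` only. -/
theorem override (hM : N < M) {m k : ℕ} (hmk : m ≤ k) (hk : k ≤ N) (a e : Finset ℕ → ℝ) (p q : ℝ)
    (ha : Harm M m k a) (hv : Val N M m a p q) :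
    ∃ a' : Finset ℕ → ℝ, (∀ B ∈ Lv M k, a' B = a B + e B) ∧ Harm M m k a' ∧
      Val N M m a' p
        (q - m.factorial * ∑ B ∈ Lv M k, |e B| * ((k.factorial : ℝ) * ex B ^ 2)) := by
  refine ⟨fun C => a C + ext M k e C, fun B hB => by simp only; rw [ext_top e hB],
    harm_add ha (Harm_ext M m k e), fun σ hσ => ?_⟩
  rw [G_add, Matrix.add_apply]
  have h1 := hv σ hσ
  have h2 := (abs_le.1 (G_ext_abs_le hM hmk hk e hσ)).2
  have hf : (m.factorial : ℝ) ≠ 0 := by exact_mod_cast m.factorial_ne_zero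
  have h3 : (q - m.factorial * ∑ B ∈ Lv M k, |e B| * ((k.factorial : ℝ) * ex B ^ 2)) /
      m.factorial = q / m.factorial - ∑ B ∈ Lv M k, |e B| * ((k.factorial : ℝ) * ex B ^ 2) := by
    rw [sub_div, mul_div_cancel_left₀ _ hf]
  rw [h3]
  linarith

theorem val_mono {m : ℕ} {a : Finset ℕ → ℝ} {p q p' q' : ℝ} (h : Val N M m a p q) (hp : p ≤ p')
    (hq : q' ≤ q) : Val N M m a p' q' := by
  intro σ hσ
  refine (h σ hσ).trans ?_
  have h1 : q' / m.factorial ≤ q / m.factorial :=
    div_le_div_of_nonneg_right hq (by positivity)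
  split_ifs <;> linarith

/-- replacing: the new top values are prescribed on the set `R`, the change is at most `K` on it -/
theorem override_on (hM : N < M) {m k : ℕ} (hmk : m ≤ k) (hk : k ≤ N) (a b : Finset ℕ → ℝ)
    (R : Finset ℕ → Prop) [DecidablePred R] (K : Finset ℕ → ℝ) (p q : ℝ)
    (ha : Harm M m k a) (hv : Val N M m a p q)
    (hK : ∀ B ∈ Lv M k, R B → |b B - a B| ≤ K B) :
    ∃ a' : Finset ℕ → ℝ, (∀ B ∈ Lv M k, a' B = if R B then b B else a B) ∧ Harm M m k a' ∧
      Val N M m a' p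
        (q - m.factorial * ∑ B ∈ (Lv M k).filter R, K B * ((k.factorial : ℝ) * ex B ^ 2)) := by
  obtain ⟨a', h1, h2, h3⟩ := override hM hmk hk a (fun B => if R B then b B - a B else 0) p q ha hv
  refine ⟨a', fun B hB => ?_, h2, val_mono h3 le_rfl ?_⟩
  · rw [h1 B hB]
    split_ifs <;> ring
  · have h4 : ∑ B ∈ Lv M k, |if R B then b B - a B else 0| * ((k.factorial : ℝ) * ex B ^ 2) ≤
        ∑ B ∈ (Lv M k).filter R, K B * ((k.factorial : ℝ) * ex B ^ 2) := by
      rw [sum_filter]
      refine sum_le_sum fun B hB => ?_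
      split_ifs with h
      · exact mul_le_mul_of_nonneg_right (hK B hB h) (by positivity)
      · rw [abs_zero, zero_mul]
    have h5 : (0 : ℝ) ≤ m.factorial := by positivity
    nlinarith [mul_le_mul_of_nonneg_left h4 h5]

end Pool.JM.Rare
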