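import Pool.Agent.Work.MP_46fa68_14.Rare1

/-!
# MP_46fa68_co, S4: the Plancherel weights of the shapes with one or two long rows
-/

set_option autoImplicit false

open Finset

namespace Pool.JM.Rare

open Pool.JM

/-- the product of distinct positive integers -/
theorem fact_le_prod (D : Finset ℕ) : (∀ x ∈ D, 1 ≤ x) → D.card.factorial ≤ ∏ x ∈ D, x := by
  induction D using Finset.induction_on_max with
  | empty => intro _; simp
  | insert a D ha ih =>
    intro h
    have hn : a ∉ D := fun h' => lt_irrefl a (ha a h')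
    rw [card_insert_of_notMem hn, prod_insert hn, Nat.factorial_succ]
    have h1 : D ⊆ (range a).erase 0 := fun y hy =>
      mem_erase.2 ⟨by have := h y (mem_insert_of_mem hy); omega, mem_range.2 (ha y hy)⟩
    have h2 := card_le_card h1
    have h3 : 1 ≤ a := h a (mem_insert_self _ _)
    rw [card_erase_of_mem (mem_range.2 h3), card_range] at h2
    exact Nat.mul_le_mul (by omega) (ih fun x hx => h x (mem_insert_of_mem hx))

/-- the product of the distances from `b` to distinct smaller numbers -/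
theorem prod_dist_le {b : ℕ} {D : Finset ℕ} (hD : ∀ y ∈ D, y < b) :
    (∏ y ∈ D, |(b : ℝ) - y|) * ((b - D.card).factorial : ℝ) ≤ (b.factorial : ℝ) := by
  have hsub : D ⊆ range b := fun y hy => mem_range.2 (hD y hy)
  have h1 : ∏ y ∈ range b, (b - y) = b.factorial := by
    rw [← Finset.prod_range_reflect, ← Finset.prod_range_add_one_eq_factorial]
    refine prod_congr rfl fun i hi => ?_
    have hi' := mem_range.1 hi
    omega
  have h2 : (b - D.card).factorial ≤ ∏ y ∈ range b \ D, (b - y) := by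
    have h3 : ∏ y ∈ range b \ D, (b - y) = ∏ x ∈ (range b \ D).image (fun y => b - y), x := by
      rw [prod_image]
      intro x hx y hy hxy
      have hx' := mem_range.1 (mem_sdiff.1 (mem_coe.1 hx)).1
      have hy' := mem_range.1 (mem_sdiff.1 (mem_coe.1 hy)).1
      simp only at hxy
      omega
    have h4 : ((range b \ D).image (fun y => b - y)).card = b - D.card := by
      rw [card_image_of_injOn, card_sdiff_of_subset hsub, card_range]
      intro x hx y hy hxy
      have hx' := mem_range.1 (mem_sdiff.1 (mem_coe.1 hx)).1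
      have hy' := mem_range.1 (mem_sdiff.1 (mem_coe.1 hy)).1
      simp only at hxy
      omega
    rw [h3, ← h4]
    refine fact_le_prod _ fun x hx => ?_
    obtain ⟨y, hy, rfl⟩ := mem_image.1 hx
    have hy' := mem_range.1 (mem_sdiff.1 hy).1
    omega
  have h5 : (∏ y ∈ D, (b - y)) * (b - D.card).factorial ≤ b.factorial := by
    rw [← h1, ← prod_sdiff hsub, mul_comm]
    exact Nat.mul_le_mul_right _ h2
  have h6 : ∏ y ∈ D, |(b : ℝ) - y| = ((∏ y ∈ D, (b - y) : ℕ) : ℝ) := by
    push_cast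
    refine prod_congr rfl fun y hy => ?_
    have hy' := hD y hy
    rw [Nat.cast_sub hy'.le, abs_of_nonneg]
    have : (y : ℝ) < b := by exact_mod_cast hy'
    linarith
  rw [h6]
  exact_mod_cast h5

/-- `B` has the top bead `M - 1 + L` -/
def Top (M L : ℕ) (B : Finset ℕ) : Prop := M - 1 + L ∈ B ∧ ∀ y ∈ B, y ≤ M - 1 + L

instance (M L : ℕ) : DecidablePred (Top M L) := fun B => by unfold Top; infer_instance

theorem Top_erase_mem {M k L : ℕ} (hM : 0 < M) {B : Finset ℕ} (hB : B ∈ Lv M k)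
    (h : Top M L B) : L ≤ k ∧ B.erase (M - 1 + L) ∈ Lv (M - 1) (k - L) := by
  obtain ⟨h1, h2, h3, h4⟩ := Lv_spec hB
  have h5 : L ≤ k := by
    have := h3 _ h.1
    omega
  refine ⟨h5, ?_⟩
  rw [mem_Lv_iff, card_erase_of_mem h.1, h1]
  refine ⟨rfl, ?_⟩
  have h6 := add_sum_erase B (fun i => i) h.1
  have h7 : ∑ i ∈ range M, i = ∑ i ∈ range (M - 1), i + (M - 1) := by
    obtain ⟨M', rfl⟩ : ∃ M', M = M' + 1 := ⟨M - 1, by omega⟩
    rw [sum_range_succ, Nat.add_sub_cancel]
  omega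

/-- removing the first row -/
theorem ex_Top_le {M k L : ℕ} {B : Finset ℕ} (hB : B ∈ Lv M k) (h : Top M L B) :
    ex B ≤ ex (B.erase (M - 1 + L)) / (L.factorial : ℝ) := by
  obtain ⟨h1, -, -, -⟩ := Lv_spec hB
  set b := M - 1 + L with hb
  have e1 : ex B = ex (B.erase b) * (∏ y ∈ B.erase b, |(b : ℝ) - y|) / (b.factorial : ℝ) := by
    rw [← ex_insert (notMem_erase b B), insert_erase h.1]
  have h2 : ∀ y ∈ B.erase b, y < b := fun y hy =>
    lt_of_le_of_ne (h.2 y (mem_of_mem_erase hy)) (mem_erase.1 hy).1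
  have h3 := prod_dist_le h2
  rw [card_erase_of_mem h.1, h1, show b - (M - 1) = L by omega] at h3
  have hb0 : (0 : ℝ) < b.factorial := by exact_mod_cast b.factorial_pos
  have hL0 : (0 : ℝ) < L.factorial := by exact_mod_cast L.factorial_pos
  rw [e1, div_le_div_iff₀ hb0 hL0, mul_assoc]
  exact mul_le_mul_of_nonneg_left h3 (ex_pos _).le

/-- removing the first row, the weights -/
theorem wt_Top_le {M k L : ℕ} (hM : 0 < M) {B : Finset ℕ} (hB : B ∈ Lv M k) (h : Top M L B) :
    (k.factorial : ℝ) * ex B ^ 2 ≤ ((k.choose L : ℝ) / (L.factorial : ℝ)) *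
      (((k - L).factorial : ℝ) * ex (B.erase (M - 1 + L)) ^ 2) := by
  obtain ⟨hL, -⟩ := Top_erase_mem hM hB h
  have h1 := ex_Top_le hB h
  have hL0 : (0 : ℝ) < L.factorial := by exact_mod_cast L.factorial_pos
  have hk0 : (0 : ℝ) < (k - L).factorial := by exact_mod_cast (k - L).factorial_pos
  have h2 : ex B ^ 2 ≤ (ex (B.erase (M - 1 + L)) / (L.factorial : ℝ)) ^ 2 :=
    pow_le_pow_left₀ (ex_pos B).le h1 2
  have h3 : (k.choose L : ℝ) * (L.factorial : ℝ) * ((k - L).factorial : ℝ) = k.factorial := by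
    exact_mod_cast Nat.choose_mul_factorial_mul_factorial hL
  refine (mul_le_mul_of_nonneg_left h2 (by positivity : (0 : ℝ) ≤ k.factorial)).trans
    (le_of_eq ?_)
  rw [← h3]
  field_simp

/-- the total weight of the shapes with first row `L` -/
theorem wt_Top_sum {M k L : ℕ} (hM : k < M) (hL : 1 ≤ L) :
    ∑ B ∈ (Lv M k).filter (Top M L), (k.factorial : ℝ) * ex B ^ 2 ≤
      (k.choose L : ℝ) / (L.factorial : ℝ) := by
  by_cases hLk : L ≤ k
  · have h1 : ∑ B ∈ (Lv M k).filter (Top M L), (k.factorial : ℝ) * ex B ^ 2 ≤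
        ∑ B ∈ (Lv M k).filter (Top M L), ((k.choose L : ℝ) / (L.factorial : ℝ)) *
          (((k - L).factorial : ℝ) * ex (B.erase (M - 1 + L)) ^ 2) := by
      refine sum_le_sum fun B hB => ?_
      obtain ⟨h2, h3⟩ := mem_filter.1 hB
      exact wt_Top_le (by omega) h2 h3
    refine h1.trans ?_
    rw [← mul_sum]
    have h4 : ∑ B ∈ (Lv M k).filter (Top M L),
        ((k - L).factorial : ℝ) * ex (B.erase (M - 1 + L)) ^ 2 ≤
        ∑ C ∈ Lv (M - 1) (k - L), ((k - L).factorial : ℝ) * ex C ^ 2 := by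
      have h5 : Set.InjOn (fun B : Finset ℕ => B.erase (M - 1 + L))
          (((Lv M k).filter (Top M L) : Finset (Finset ℕ)) : Set (Finset ℕ)) := by
        intro B hB B' hB' hBB
        have h6 := (mem_filter.1 (mem_coe.1 hB)).2.1
        have h7 := (mem_filter.1 (mem_coe.1 hB')).2.1
        simp only at hBB
        rw [← insert_erase h6, ← insert_erase h7, hBB]
      have h8 : ∑ B ∈ (Lv M k).filter (Top M L),
          ((k - L).factorial : ℝ) * ex (B.erase (M - 1 + L)) ^ 2 =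
          ∑ C ∈ ((Lv M k).filter (Top M L)).image (fun B => B.erase (M - 1 + L)),
            ((k - L).factorial : ℝ) * ex C ^ 2 := by
        rw [sum_image fun x hx y hy hxy => h5 hx hy hxy]
      rw [h8]
      refine sum_le_sum_of_subset_of_nonneg ?_ fun _ _ _ => by positivity
      intro C hC
      obtain ⟨B, hB, rfl⟩ := mem_image.1 hC
      obtain ⟨h9, h10⟩ := mem_filter.1 hB
      exact (Top_erase_mem (by omega) h9 h10).2
    rw [planch_sum (M := M - 1) (k := k - L) (by omega)] at h4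
    calc _ ≤ ((k.choose L : ℝ) / (L.factorial : ℝ)) * 1 :=
          mul_le_mul_of_nonneg_left h4 (by positivity)
      _ = _ := mul_one _
  · have h1 : (Lv M k).filter (Top M L) = ∅ := by
      refine filter_eq_empty_iff.2 fun B hB h => hLk ?_
      exact (Top_erase_mem (by omega) hB h).1
    rw [h1, sum_empty]
    positivity

/-- every shape has a first row -/
theorem exists_Top {M k : ℕ} (hM : 0 < M) {B : Finset ℕ} (hB : B ∈ Lv M k) :
    ∃ L, L ≤ k ∧ Top M L B := by
  obtain ⟨h1, -, h3, -⟩ := Lv_spec hB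
  have hne : B.Nonempty := card_pos.1 (by omega)
  have h4 : M - 1 ≤ B.max' hne := by
    by_contra hcon
    have h5 : B ⊆ range (M - 1) := fun y hy => mem_range.2 (by
      have := B.le_max' y hy
      omega)
    have := card_le_card h5
    rw [card_range, h1] at this
    omega
  have hm := B.max'_mem hne
  have := h3 _ hm
  refine ⟨B.max' hne - (M - 1), by omega, ?_, fun y hy => ?_⟩
  · rwa [show M - 1 + (B.max' hne - (M - 1)) = B.max' hne by omega]
  · rw [show M - 1 + (B.max' hne - (M - 1)) = B.max' hne by omega]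
    exact B.le_max' y hy

theorem Top_unique {M L L' : ℕ} {B : Finset ℕ} (h : Top M L B) (h' : Top M L' B) : L = L' := by
  have h1 := h.2 _ h'.1
  have h2 := h'.2 _ h.1
  omega

/-- the first row of the shape, read off the top bead -/
def fr (M : ℕ) (B : Finset ℕ) : ℕ := B.sup id - (M - 1)

theorem fr_eq {M L : ℕ} {B : Finset ℕ} (h : Top M L B) : fr M B = L := by
  unfold fr
  have h1 : B.sup id = M - 1 + L := le_antisymm (Finset.sup_le fun y hy => h.2 y hy)
    (Finset.le_sup (f := id) h.1)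
  rw [h1]
  omega

/-- **The cost of an override by `K (first row)` on the shapes with first row `≥ L0`.** -/
theorem wt_long {M k : ℕ} (hM : k < M) {L0 : ℕ} (hL0 : 1 ≤ L0) (K : ℕ → ℝ) (hK : ∀ L, 0 ≤ K L) :
    ∑ B ∈ (Lv M k).filter (fun B => L0 ≤ fr M B), K (fr M B) * ((k.factorial : ℝ) * ex B ^ 2) ≤
      ∑ L ∈ Icc L0 k, K L * ((k.choose L : ℝ) / (L.factorial : ℝ)) := by
  have h1 : ∀ B ∈ (Lv M k).filter (fun B => L0 ≤ fr M B), fr M B ∈ Icc L0 k := by
    intro B hB
    obtain ⟨h2, h3⟩ := mem_filter.1 hB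
    obtain ⟨L, h4, h5⟩ := exists_Top (by omega) h2
    rw [fr_eq h5] at h3 ⊢
    exact mem_Icc.2 ⟨h3, h4⟩
  rw [← sum_fiberwise_of_maps_to h1]
  refine sum_le_sum fun L hL => ?_
  obtain ⟨h6, h7⟩ := mem_Icc.1 hL
  have h8 : ((Lv M k).filter (fun B => L0 ≤ fr M B)).filter (fun B => fr M B = L) =
      (Lv M k).filter (Top M L) := by
    ext B
    simp only [mem_filter]
    constructor
    · rintro ⟨⟨h9, -⟩, h10⟩
      obtain ⟨L', -, h11⟩ := exists_Top (by omega) h9
      rw [fr_eq h11] at h10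
      exact ⟨h9, h10 ▸ h11⟩
    · rintro ⟨h9, h10⟩
      rw [fr_eq h10]
      exact ⟨⟨h9, h6⟩, rfl⟩
  rw [h8]
  have h9 : ∑ B ∈ (Lv M k).filter (Top M L), K (fr M B) * ((k.factorial : ℝ) * ex B ^ 2) =
      K L * ∑ B ∈ (Lv M k).filter (Top M L), (k.factorial : ℝ) * ex B ^ 2 := by
    rw [mul_sum]
    refine sum_congr rfl fun B hB => ?_
    rw [fr_eq (mem_filter.1 hB).2]
  rw [h9]
  exact mul_le_mul_of_nonneg_left (wt_Top_sum hM (by omega)) (hK L)

/-! ### two long rows -/

/-- the refined bound when the second bead is known -/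
theorem ex_Top2_le {M k L1 L2 : ℕ} (hM : 2 ≤ M) {B : Finset ℕ} (hB : B ∈ Lv M k)
    (h1 : Top M L1 B) (h2 : Top (M - 1) L2 (B.erase (M - 1 + L1))) :
    ex B ≤ ((L1 : ℝ) - L2 + 1) / (((L1 + 1).factorial : ℝ) * (L2.factorial : ℝ)) *
      ex ((B.erase (M - 1 + L1)).erase (M - 1 - 1 + L2)) := by
  obtain ⟨hc, -, -, -⟩ := Lv_spec hB
  obtain ⟨hL1, hE⟩ := Top_erase_mem (by omega) hB h1
  have h3 := ex_Top_le hE h2
  set b := M - 1 + L1 with hb
  set c := M - 1 - 1 + L2 with hc'
  set D := B.erase b with hD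
  have hcD : c ∈ D := h2.1
  have e1 : ex B = ex D * (∏ y ∈ D, |(b : ℝ) - y|) / (b.factorial : ℝ) := by
    rw [← ex_insert (notMem_erase b B), insert_erase h1.1]
  have h4 : ∀ y ∈ D, y < b := fun y hy =>
    lt_of_le_of_ne (h1.2 y (mem_of_mem_erase hy)) (mem_erase.1 hy).1
  have hcb := h4 c hcD
  have h5 := prod_dist_le (b := b) (D := D.erase c) fun y hy => h4 y (mem_of_mem_erase hy)
  rw [card_erase_of_mem hcD, hD, card_erase_of_mem h1.1, hc, ← hD,
    show b - (M - 1 - 1) = L1 + 1 by omega] at h5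
  have e2 : (b : ℝ) - c = (L1 : ℝ) - L2 + 1 := by
    have : b + L2 = c + L1 + 1 := by omega
    have h' : ((b + L2 : ℕ) : ℝ) = ((c + L1 + 1 : ℕ) : ℝ) := by rw [this]
    push_cast at h'
    linarith
  have e3 : |(b : ℝ) - c| = (L1 : ℝ) - L2 + 1 := by
    rw [abs_of_nonneg, e2]
    have : (c : ℝ) < b := by exact_mod_cast hcb
    linarith
  have hpos : 0 ≤ (L1 : ℝ) - L2 + 1 := by rw [← e3]; exact abs_nonneg _
  rw [e1, ← mul_prod_erase D _ hcD, e3]
  have hb0 : (0 : ℝ) < b.factorial := by exact_mod_cast b.factorial_pos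
  have hL0 : (0 : ℝ) < L2.factorial := by exact_mod_cast L2.factorial_pos
  have hL1' : (0 : ℝ) < (L1 + 1).factorial := by exact_mod_cast (L1 + 1).factorial_pos
  set Q := ∏ y ∈ D.erase c, |(b : ℝ) - y| with hQ
  have hQ0 : 0 ≤ Q := prod_nonneg fun _ _ => abs_nonneg _
  have h6 : Q / b.factorial ≤ 1 / (L1 + 1).factorial := by
    rw [div_le_div_iff₀ hb0 hL1', one_mul]
    exact h5
  calc ex D * (((L1 : ℝ) - L2 + 1) * Q) / b.factorial
      = (((L1 : ℝ) - L2 + 1) * (Q / b.factorial)) * ex D := by ring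
    _ ≤ (((L1 : ℝ) - L2 + 1) * (1 / (L1 + 1).factorial)) * (ex (D.erase c) / L2.factorial) := by
        refine mul_le_mul (mul_le_mul_of_nonneg_left h6 hpos) h3 (ex_pos _).le (by positivity)
    _ = _ := by field_simp

/-- the total weight of the shapes with the first two rows `L1, L2` -/
theorem wt_Top2_sum {M k L1 L2 : ℕ} (hM : k < M) (hM2 : 2 ≤ M) (hL : 2 ≤ L1 + L2)
    (hk : L1 + L2 ≤ k) :
    ∑ B ∈ (Lv M k).filter (fun B => Top M L1 B ∧ Top (M - 1) L2 (B.erase (M - 1 + L1))),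
      (k.factorial : ℝ) * ex B ^ 2 ≤
      (k.factorial : ℝ) * (((L1 : ℝ) - L2 + 1) /
        (((L1 + 1).factorial : ℝ) * (L2.factorial : ℝ))) ^ 2 / ((k - L1 - L2).factorial : ℝ) := by
  set c0 := ((L1 : ℝ) - L2 + 1) / (((L1 + 1).factorial : ℝ) * (L2.factorial : ℝ)) with hc0
  set S := (Lv M k).filter (fun B => Top M L1 B ∧ Top (M - 1) L2 (B.erase (M - 1 + L1))) with hS
  have hj0 : (0 : ℝ) < ((k - L1 - L2).factorial : ℝ) := by
    exact_mod_cast (k - L1 - L2).factorial_pos
  set ψ : Finset ℕ → Finset ℕ := fun B => (B.erase (M - 1 + L1)).erase (M - 1 - 1 + L2) with hψ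
  have h1 : ∀ B ∈ S, (k.factorial : ℝ) * ex B ^ 2 ≤
      ((k.factorial : ℝ) * c0 ^ 2 / ((k - L1 - L2).factorial : ℝ)) *
        (((k - L1 - L2).factorial : ℝ) * ex (ψ B) ^ 2) := by
    intro B hB
    obtain ⟨h2, h3, h4⟩ := mem_filter.1 hB
    have h5 := ex_Top2_le hM2 h2 h3 h4
    have h6 : ex B ^ 2 ≤ (c0 * ex (ψ B)) ^ 2 := pow_le_pow_left₀ (ex_pos B).le h5 2
    refine (mul_le_mul_of_nonneg_left h6 (by positivity : (0 : ℝ) ≤ k.factorial)).trans
      (le_of_eq ?_)
    field_simp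
  refine (sum_le_sum h1).trans ?_
  rw [← mul_sum]
  have h5 : Set.InjOn ψ ((S : Finset (Finset ℕ)) : Set (Finset ℕ)) := by
    intro B hB B' hB' hBB
    obtain ⟨-, h6, h7⟩ := mem_filter.1 (mem_coe.1 hB)
    obtain ⟨-, h8, h9⟩ := mem_filter.1 (mem_coe.1 hB')
    have e : B.erase (M - 1 + L1) = B'.erase (M - 1 + L1) := by
      rw [← insert_erase h7.1, ← insert_erase h9.1]
      exact congrArg _ hBB
    rw [← insert_erase h6.1, ← insert_erase h8.1, e]
  have h8 : ∑ B ∈ S, ((k - L1 - L2).factorial : ℝ) * ex (ψ B) ^ 2 =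
      ∑ C ∈ S.image ψ, ((k - L1 - L2).factorial : ℝ) * ex C ^ 2 := by
    rw [sum_image fun x hx y hy hxy => h5 hx hy hxy]
  have h10 : ∑ C ∈ S.image ψ, ((k - L1 - L2).factorial : ℝ) * ex C ^ 2 ≤
      ∑ C ∈ Lv (M - 1 - 1) (k - L1 - L2), ((k - L1 - L2).factorial : ℝ) * ex C ^ 2 := by
    refine sum_le_sum_of_subset_of_nonneg ?_ fun _ _ _ => by positivity
    intro C hC
    obtain ⟨B, hB, rfl⟩ := mem_image.1 hC
    obtain ⟨h11, h12, h13⟩ := mem_filter.1 hB
    exact (Top_erase_mem (by omega) (Top_erase_mem (by omega) h11 h12).2 h13).2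
  rw [planch_sum (M := M - 1 - 1) (k := k - L1 - L2) (by omega)] at h10
  rw [h8]
  calc _ ≤ ((k.factorial : ℝ) * c0 ^ 2 / ((k - L1 - L2).factorial : ℝ)) * 1 :=
        mul_le_mul_of_nonneg_left h10 (by positivity)
    _ = _ := mul_one _

end Pool.JM.Rare
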