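import Pool.Agent.Work.MP_46fa68_14.Rare2

/-!
# MP_46fa68_co, S4: the joint certificate with overrides, and its limit form

The functions `al`, `f`, `g` of the certificate are ARBITRARY functions on the top levels; harmonic functions `al0`,
`f0`, `g0` with values `Val` are only needed near them, in the mean with respect to the Plancherel weights.
-/

set_option autoImplicit false

open Finset Equiv

namespace Pool.JM.Rare

open Pool.JM

/-- the loss of an override: `m! ∑ |b - a| k! ex^2` over the level `k` -/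
noncomputable def loss (M m k : ℕ) (a b : Finset ℕ → ℝ) : ℝ :=
  m.factorial * ∑ B ∈ Lv M k, |b B - a B| * ((k.factorial : ℝ) * ex B ^ 2)

theorem loss_nonneg (M m k : ℕ) (a b : Finset ℕ → ℝ) : 0 ≤ loss M m k a b := by
  unfold loss
  positivity

/-- a uniform change costs `m! δ` -/
theorem loss_le_of_sup {M m k : ℕ} (hk : k < M) {a b : Finset ℕ → ℝ} {δ : ℝ}
    (h : ∀ B ∈ Lv M k, |b B - a B| ≤ δ) : loss M m k a b ≤ m.factorial * δ := by
  unfold loss
  refine mul_le_mul_of_nonneg_left ?_ (by positivity)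
  calc ∑ B ∈ Lv M k, |b B - a B| * ((k.factorial : ℝ) * ex B ^ 2)
      ≤ ∑ B ∈ Lv M k, δ * ((k.factorial : ℝ) * ex B ^ 2) :=
        sum_le_sum fun B hB => mul_le_mul_of_nonneg_right (h B hB) (by positivity)
    _ = δ := by rw [← mul_sum, planch_sum hk, mul_one]

/-- the losses add up -/
theorem loss_trans (M m k : ℕ) (a b c : Finset ℕ → ℝ) :
    loss M m k a c ≤ loss M m k a b + loss M m k b c := by
  unfold loss
  rw [← mul_add, ← sum_add_distrib]
  refine mul_le_mul_of_nonneg_left (sum_le_sum fun B _ => ?_) (by positivity)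
  rw [← add_mul]
  refine mul_le_mul_of_nonneg_right ?_ (by positivity)
  calc |c B - a B| = |(b B - a B) + (c B - b B)| := by congr 1; ring
    _ ≤ _ := abs_add_le _ _

/-- uniform change `δ` and a change `K (first row)` on the shapes with first row `≥ L0` -/
theorem loss_le_of_sup_long {M m k : ℕ} (hk : k < M) {L0 : ℕ} (hL0 : 1 ≤ L0) (K : ℕ → ℝ)
    (hK : ∀ L, 0 ≤ K L) {a b : Finset ℕ → ℝ} {δ : ℝ} (hδ : 0 ≤ δ)
    (h1 : ∀ B ∈ Lv M k, fr M B < L0 → |b B - a B| ≤ δ)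
    (h2 : ∀ B ∈ Lv M k, L0 ≤ fr M B → |b B - a B| ≤ δ + K (fr M B)) :
    loss M m k a b ≤ m.factorial * (δ + ∑ L ∈ Icc L0 k, K L * ((k.choose L : ℝ) / (L.factorial : ℝ))) := by
  unfold loss
  refine mul_le_mul_of_nonneg_left ?_ (by positivity)
  have h3 : ∀ B ∈ Lv M k, |b B - a B| * ((k.factorial : ℝ) * ex B ^ 2) ≤
      δ * ((k.factorial : ℝ) * ex B ^ 2) +
        if L0 ≤ fr M B then K (fr M B) * ((k.factorial : ℝ) * ex B ^ 2) else 0 := by
    intro B hB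
    split_ifs with h
    · rw [← add_mul]
      exact mul_le_mul_of_nonneg_right (h2 B hB h) (by positivity)
    · rw [add_zero]
      exact mul_le_mul_of_nonneg_right (h1 B hB (by omega)) (by positivity)
  refine (sum_le_sum h3).trans ?_
  rw [sum_add_distrib, ← mul_sum, planch_sum hk, mul_one, ← sum_filter]
  exact add_le_add le_rfl (wt_long hk hL0 K hK)

/-- **The cell bound from a joint certificate with overrides.** -/
theorem joint_cell_rare {n m M : ℕ} (hM : n + 1 < M) (hm : m ≤ n)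
    (al0 f0 g0 al ph f g : Finset ℕ → ℝ) (W1 s11 ff s12 W2 s22 c1 c2 c3 : ℝ)
    (ha1 : Harm M m n al0) (ha2 : Val (n + 1) M m al0 W1 s11)
    (hf1 : Harm M m (n + 1) f0) (hf2 : Val (n + 1) M m f0 ff s12)
    (hg1 : Harm M m (n + 1) g0) (hg2 : Val (n + 1) M m g0 W2 s22)
    (h1 : loss M m n al0 al ≤ c1) (h2 : loss M m (n + 1) f0 f ≤ c2)
    (h3 : loss M m (n + 1) g0 g ≤ c3)
    (hg : ∀ B ∈ Lv M (n + 1), 0 < g B)
    (hal : ∀ C ∈ Lv M n,
      ∑ x ∈ ad C, w C x * ((f (mv C x) - ph C) ^ 2 / g (mv C x)) ≤ al C)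
    (A : Finset (Perm (Fin (n + 1))))
    (hA : ∀ σ ∈ A, ∀ τ ∈ A, n + 1 - m ≤ (univ.filter fun i => σ i = τ i).card)
    (i j : Fin (n + 1)) :
    let X : ℝ := ((A.filter fun σ => σ i = j).card : ℝ)
    let Y : ℝ := ((A.filter fun σ => σ i ≠ j).card : ℝ)
    0 ≤ (W1 * X + W2 * Y) - ((s11 - c1) * X ^ 2 + 2 * (s12 - c2) * X * Y +
      (s22 - c3) * Y ^ 2) / m.factorial := by
  obtain ⟨al', a1, a2, a3⟩ := override (N := n + 1) (by omega) hm (by omega) al0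
    (fun C => al C - al0 C) W1 s11 ha1 ha2
  obtain ⟨f', b1, b2, b3⟩ := override (N := n + 1) (by omega) (by omega) le_rfl f0
    (fun C => f C - f0 C) ff s12 hf1 hf2
  obtain ⟨g', d1, d2, d3⟩ := override (N := n + 1) (by omega) (by omega) le_rfl g0
    (fun C => g C - g0 C) W2 s22 hg1 hg2
  have ea : ∀ C ∈ Lv M n, al' C = al C := fun C hC => by rw [a1 C hC]; ring
  have eb : ∀ B ∈ Lv M (n + 1), f' B = f B := fun B hB => by rw [b1 B hB]; ring
  have ed : ∀ B ∈ Lv M (n + 1), g' B = g B := fun B hB => by rw [d1 B hB]; ring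
  refine joint_cell hM hm al' ph f' g' W1 (s11 - c1) ff (s12 - c2) W2 (s22 - c3)
    a2 (val_mono a3 le_rfl ?_) b2 (val_mono b3 le_rfl ?_) d2 (val_mono d3 le_rfl ?_)
    (fun B hB => by rw [ed B hB]; exact hg B hB) (fun C hC => ?_) A hA i j
  · exact sub_le_sub_left h1 _
  · exact sub_le_sub_left h2 _
  · exact sub_le_sub_left h3 _
  · rw [ea C hC]
    refine le_trans (le_of_eq ?_) (hal C hC)
    refine sum_congr rfl fun x hx => ?_
    rw [eb _ (mv_mem hC hx), ed _ (mv_mem hC hx)]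

/-- the data of a certificate up to `δ` -/
def JCert (n m : ℕ) (W1 s11 s12 W2 s22 δ : ℝ) : Prop :=
  ∃ (M : ℕ) (al0 f0 g0 al ph f g : Finset ℕ → ℝ) (ff q1 q2 q3 c1 c2 c3 : ℝ),
    n + 1 < M ∧
    (Harm M m n al0 ∧ Val (n + 1) M m al0 W1 q1) ∧
    (Harm M m (n + 1) f0 ∧ Val (n + 1) M m f0 ff q2) ∧
    (Harm M m (n + 1) g0 ∧ Val (n + 1) M m g0 W2 q3) ∧
    (loss M m n al0 al ≤ c1 ∧ loss M m (n + 1) f0 f ≤ c2 ∧ loss M m (n + 1) g0 g ≤ c3) ∧
    (s11 - δ ≤ q1 - c1 ∧ s12 - δ ≤ q2 - c2 ∧ s22 - δ ≤ q3 - c3) ∧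
    (∀ B ∈ Lv M (n + 1), 0 < g B) ∧
    (∀ C ∈ Lv M n, ∑ x ∈ ad C, w C x * ((f (mv C x) - ph C) ^ 2 / g (mv C x)) ≤ al C)

/-- **The cell bound, limit form.** -/
theorem joint_cell_lim {n m : ℕ} (hm : m ≤ n) (W1 s11 s12 W2 s22 : ℝ)
    (H : ∀ δ : ℝ, 0 < δ → JCert n m W1 s11 s12 W2 s22 δ)
    (A : Finset (Perm (Fin (n + 1))))
    (hA : ∀ σ ∈ A, ∀ τ ∈ A, n + 1 - m ≤ (univ.filter fun i => σ i = τ i).card)
    (i j : Fin (n + 1)) :
    let X : ℝ := ((A.filter fun σ => σ i = j).card : ℝ)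
    let Y : ℝ := ((A.filter fun σ => σ i ≠ j).card : ℝ)
    0 ≤ (W1 * X + W2 * Y) - (s11 * X ^ 2 + 2 * s12 * X * Y + s22 * Y ^ 2) / m.factorial := by
  intro X Y
  have hX : 0 ≤ X := Nat.cast_nonneg _
  have hY : 0 ≤ Y := Nat.cast_nonneg _
  have hf : (0 : ℝ) < m.factorial := by exact_mod_cast m.factorial_pos
  set Z := (X + Y) ^ 2 / (m.factorial : ℝ) with hZ
  have hZ0 : 0 ≤ Z := by positivity
  have key : ∀ δ : ℝ, 0 < δ → 0 ≤ (W1 * X + W2 * Y) -
      (s11 * X ^ 2 + 2 * s12 * X * Y + s22 * Y ^ 2) / m.factorial + δ * Z := by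
    intro δ hδ
    obtain ⟨M, al0, f0, g0, al, ph, f, g, ff, q1, q2, q3, c1, c2, c3, hM, ⟨ha1, ha2⟩,
      ⟨hf1, hf2⟩, ⟨hg1, hg2⟩, ⟨l1, l2, l3⟩, ⟨p1, p2, p3⟩, hg, hal⟩ := H δ hδ
    have h := joint_cell_rare hM hm al0 f0 g0 al ph f g W1 q1 ff q2 W2 q3 c1 c2 c3 ha1 ha2 hf1
      hf2 hg1 hg2 l1 l2 l3 hg hal A hA i j
    have h' : 0 ≤ (W1 * X + W2 * Y) - ((q1 - c1) * X ^ 2 + 2 * (q2 - c2) * X * Y +
      (q3 - c3) * Y ^ 2) / m.factorial := h
    refine h'.trans ?_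
    have e1 : (s11 * X ^ 2 + 2 * s12 * X * Y + s22 * Y ^ 2) - δ * (X + Y) ^ 2 ≤
        (q1 - c1) * X ^ 2 + 2 * (q2 - c2) * X * Y + (q3 - c3) * Y ^ 2 := by
      have i1 := mul_le_mul_of_nonneg_right p1 (sq_nonneg X)
      have i2 := mul_le_mul_of_nonneg_right p2 (mul_nonneg hX hY)
      have i3 := mul_le_mul_of_nonneg_right p3 (sq_nonneg Y)
      nlinarith
    have e2 := div_le_div_of_nonneg_right e1 hf.le
    rw [sub_div, mul_div_assoc] at e2
    rw [← hZ] at e2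
    linarith
  by_contra hcon
  rw [not_le] at hcon
  set V := (W1 * X + W2 * Y) - (s11 * X ^ 2 + 2 * s12 * X * Y + s22 * Y ^ 2) / m.factorial
    with hV
  have hd : 0 < -V / (2 * (Z + 1)) := by
    apply div_pos (by linarith) (by linarith)
  have h := key _ hd
  have h1 : -V / (2 * (Z + 1)) * Z ≤ -V / 2 := by
    rw [div_mul_eq_mul_div, div_le_div_iff₀ (by linarith) (by norm_num)]
    nlinarith
  linarith

end Pool.JM.Rare
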