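import Pool.Agent.Work.MP_46fa68_14.Rare3
import Pool.Agent.Work.MP_46fa68_h4.OB5

/-!
# MP_46fa68_co, S4: the kernels of the overrides, in the form wanted by `JC_of_obf`
-/

set_option autoImplicit false

open Finset Equiv

namespace Pool.JM.Rare

open Pool.JM

variable {N K : ℕ}

/-- the level `m` values of a harmonic function are bounded by its weighted top values -/
theorem kernel_abs_le (hM : N < K) {m k : ℕ} (hmk : m ≤ k) (hk : k ≤ N) {a b : Finset ℕ → ℝ}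
    (ha : Harm K m k a) (hab : ∀ B ∈ Lv K k, a B = b B) {σ : Perm (Fin N)} (hσ : Sn m σ) :
    |G N K a m σ 1| ≤ ∑ B ∈ Lv K k, |b B| * ((k.factorial : ℝ) * ex B ^ 2) := by
  have h1 : G N K a k σ 1 = G N K a m (1 * σ * 1⁻¹) 1 :=
    G_val' hM hk hmk a ha (Sn_one k) (by simpa using hσ)
  have e1 : (1 : Perm (Fin N)) * σ * 1⁻¹ = σ := by group
  rw [e1] at h1
  rw [← h1]
  refine (G_abs_le hM hk a σ 1).trans (le_of_eq ?_)
  exact sum_congr rfl fun B hB => by rw [hab B hB]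

/-- **The bridge to `JC_of_obf`.** -/
theorem hx_kernel_le (hM : N < K) {m k : ℕ} (hmk : m ≤ k) (hk : k ≤ N) (b : Finset ℕ → ℝ)
    {σ : Perm (Fin N)} (hσ : Sn m σ) :
    G N K (hx K k b) m σ 1 ≤ ∑ B ∈ Lv K k, |b B| * ((k.factorial : ℝ) * ex B ^ 2) :=
  (le_abs_self _).trans
    (kernel_abs_le hM hmk hk (Harm_hx m k b) (fun B hB => hx_top b hB) hσ)

/-- the same with a bound by the first row: `|b B| ≤ δ + K0 (first row)`, `b` arbitrary -/
theorem hx_kernel_le_long (hM : N < K) {m k : ℕ} (hmk : m ≤ k) (hk : k ≤ N) (b : Finset ℕ → ℝ)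
    {L0 : ℕ} (hL0 : 1 ≤ L0) (K0 : ℕ → ℝ) (hK : ∀ L, 0 ≤ K0 L) {δ : ℝ} (hδ : 0 ≤ δ)
    (h1 : ∀ B ∈ Lv K k, fr K B < L0 → |b B| ≤ δ)
    (h2 : ∀ B ∈ Lv K k, L0 ≤ fr K B → |b B| ≤ δ + K0 (fr K B))
    {σ : Perm (Fin N)} (hσ : Sn m σ) :
    G N K (hx K k b) m σ 1 ≤
      δ + ∑ L ∈ Icc L0 k, K0 L * ((k.choose L : ℝ) / (L.factorial : ℝ)) := by
  refine (hx_kernel_le hM hmk hk b hσ).trans ?_
  have hm : (0 : ℝ) < m.factorial := by exact_mod_cast m.factorial_pos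
  have h := loss_le_of_sup_long (m := m) (a := fun _ => 0) (b := b) (by omega : k < K) hL0 K0 hK hδ
    (fun B hB hL => by simpa using h1 B hB hL) (fun B hB hL => by simpa using h2 B hB hL)
  unfold loss at h
  simp only [sub_zero] at h
  exact le_of_mul_le_mul_left h hm

end Pool.JM.Rare
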